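import Pool.Agent.NNr.R11_1_4_5.D1
import Pool.Agent.NNr.R11_1_4_5.D2

set_option linter.all false
set_option maxRecDepth 1000000
namespace Pool.Agent.NNr.R11_1_4_5

open Pool.Agent.NNe

def ti1_0 : tileCk (nat_lit 60) (nat_lit 5) (nat_lit 2) (nat_lit 2) (nat_lit 252) (nat_lit 11) (nat_lit 16) ZL1_0 CL1 = true := by decide +kernel
def zl1_0 : zlOK (nat_lit 252) ZL1_0 = true := by decide +kernel
def ti1_1 : tileCk (nat_lit 60) (nat_lit 5) (nat_lit 2) (nat_lit 2) (nat_lit 252) (nat_lit 11) (nat_lit 16) ZL1_1 CL1 = true := by decide +kernel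
def zl1_1 : zlOK (nat_lit 252) ZL1_1 = true := by decide +kernel
def tc1_0 : tiCov (nat_lit 1) (nat_lit 0) ZZ1 C1_0 = true := by decide +kernel
def tc1_1 : tiCov (nat_lit 1) (nat_lit 1) ZZ1 C1_1 = true := by decide +kernel
def tc1_2 : tiCov (nat_lit 1) (nat_lit 2) ZZ1 C1_2 = true := by decide +kernel
def tc1_3 : tiCov (nat_lit 1) (nat_lit 3) ZZ1 C1_3 = true := by decide +kernel
def tc1_4 : tiCov (nat_lit 1) (nat_lit 4) ZZ1 C1_4 = true := by decide +kernel
def tc1_5 : tiCov (nat_lit 1) (nat_lit 5) ZZ1 C1_5 = true := by decide +kernel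
def tc1_10 : tiCov (nat_lit 1) (nat_lit 10) ZZ1 C1_10 = true := by decide +kernel
def tc1_11 : tiCov (nat_lit 1) (nat_lit 11) ZZ1 C1_11 = true := by decide +kernel
def tc1_12 : tiCov (nat_lit 1) (nat_lit 12) ZZ1 C1_12 = true := by decide +kernel
def tc1_13 : tiCov (nat_lit 1) (nat_lit 13) ZZ1 C1_13 = true := by decide +kernel
def tc1_14 : tiCov (nat_lit 1) (nat_lit 14) ZZ1 C1_14 = true := by decide +kernel
def wf2_0 : wfC (nat_lit 61) (nat_lit 5) C2_0 = true := by decide +kernel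
def rf2_0 : rfCk (nat_lit 60) (nat_lit 5) (nat_lit 61) (nat_lit 5) (nat_lit 6) (nat_lit 524288) (nat_lit 0) TL2 CL1 CL2 = true := by decide +kernel
def st2_0_0 : starCk (nat_lit 61) (nat_lit 5) (nat_lit 1) (nat_lit 2) (nat_lit 36) (nat_lit 0) (nat_lit 256) C2_0 = true := by decide +kernel
def sc2_0 : stCov (nat_lit 2) (nat_lit 0) (Rl.cons (nat_lit 0) (nat_lit 36) Rl.nil) C2_0 = true := by decide +kernel
def wf2_1 : wfC (nat_lit 61) (nat_lit 5) C2_1 = true := by decide +kernel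
def rf2_1 : rfCk (nat_lit 60) (nat_lit 5) (nat_lit 61) (nat_lit 5) (nat_lit 6) (nat_lit 524288) (nat_lit 1) TL2 CL1 CL2 = true := by decide +kernel
def st2_1_0 : starCk (nat_lit 61) (nat_lit 5) (nat_lit 1) (nat_lit 2) (nat_lit 12) (nat_lit 0) (nat_lit 16) C2_1 = true := by decide +kernel
def sc2_1 : stCov (nat_lit 1) (nat_lit 0) (Rl.cons (nat_lit 0) (nat_lit 12) Rl.nil) C2_1 = true := by decide +kernel
def wf2_2 : wfC (nat_lit 61) (nat_lit 5) C2_2 = true := by decide +kernel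
def rf2_2 : rfCk (nat_lit 60) (nat_lit 5) (nat_lit 61) (nat_lit 5) (nat_lit 6) (nat_lit 524288) (nat_lit 2) TL2 CL1 CL2 = true := by decide +kernel
def st2_2_0 : starCk (nat_lit 61) (nat_lit 5) (nat_lit 1) (nat_lit 2) (nat_lit 26) (nat_lit 146) (nat_lit 16) C2_2 = true := by decide +kernel
def sc2_2 : stCov (nat_lit 1) (nat_lit 146) (Rl.cons (nat_lit 146) (nat_lit 26) Rl.nil) C2_2 = true := by decide +kernel
def wf2_3 : wfC (nat_lit 61) (nat_lit 5) C2_3 = true := by decide +kernel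
def rf2_3 : rfCk (nat_lit 60) (nat_lit 5) (nat_lit 61) (nat_lit 5) (nat_lit 6) (nat_lit 524288) (nat_lit 3) TL2 CL1 CL2 = true := by decide +kernel
def st2_3_0 : starCk (nat_lit 61) (nat_lit 5) (nat_lit 1) (nat_lit 2) (nat_lit 39) (nat_lit 220) (nat_lit 16) C2_3 = true := by decide +kernel
def sc2_3 : stCov (nat_lit 1) (nat_lit 220) (Rl.cons (nat_lit 220) (nat_lit 39) Rl.nil) C2_3 = true := by decide +kernel
def wf2_4 : wfC (nat_lit 61) (nat_lit 5) C2_4 = true := by decide +kernel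
def rf2_4 : rfCk (nat_lit 60) (nat_lit 5) (nat_lit 61) (nat_lit 5) (nat_lit 6) (nat_lit 524288) (nat_lit 4) TL2 CL1 CL2 = true := by decide +kernel
def st2_4_0 : starCk (nat_lit 61) (nat_lit 5) (nat_lit 1) (nat_lit 2) (nat_lit 32) (nat_lit 296) (nat_lit 256) C2_4 = true := by decide +kernel
def sc2_4 : stCov (nat_lit 2) (nat_lit 296) (Rl.cons (nat_lit 296) (nat_lit 32) Rl.nil) C2_4 = true := by decide +kernel
def wf2_5 : wfC (nat_lit 61) (nat_lit 5) C2_5 = true := by decide +kernel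
def rf2_5 : rfCk (nat_lit 60) (nat_lit 5) (nat_lit 61) (nat_lit 5) (nat_lit 6) (nat_lit 524288) (nat_lit 5) TL2 CL1 CL2 = true := by decide +kernel
def st2_5_0 : starCk (nat_lit 61) (nat_lit 5) (nat_lit 1) (nat_lit 2) (nat_lit 20) (nat_lit 96) (nat_lit 16) C2_5 = true := by decide +kernel
def sc2_5 : stCov (nat_lit 1) (nat_lit 96) (Rl.cons (nat_lit 96) (nat_lit 20) Rl.nil) C2_5 = true := by decide +kernel
def wf2_10 : wfC (nat_lit 61) (nat_lit 5) C2_10 = true := by decide +kernel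
def rf2_10 : rfCk (nat_lit 60) (nat_lit 5) (nat_lit 61) (nat_lit 5) (nat_lit 6) (nat_lit 524288) (nat_lit 10) TL2 CL1 CL2 = true := by decide +kernel
def st2_10_0 : starCk (nat_lit 61) (nat_lit 5) (nat_lit 1) (nat_lit 2) (nat_lit 434) (nat_lit 590) (nat_lit 4096) C2_10 = true := by decide +kernel
def sc2_10 : stCov (nat_lit 3) (nat_lit 590) (Rl.cons (nat_lit 590) (nat_lit 434) Rl.nil) C2_10 = true := by decide +kernel
def wf2_11 : wfC (nat_lit 61) (nat_lit 5) C2_11 = true := by decide +kernel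
def rf2_11 : rfCk (nat_lit 60) (nat_lit 5) (nat_lit 61) (nat_lit 5) (nat_lit 6) (nat_lit 524288) (nat_lit 11) TL2 CL1 CL2 = true := by decide +kernel
def st2_11_0 : starCk (nat_lit 61) (nat_lit 5) (nat_lit 1) (nat_lit 2) (nat_lit 95) (nat_lit 448) (nat_lit 16) C2_11 = true := by decide +kernel
def sc2_11 : stCov (nat_lit 1) (nat_lit 448) (Rl.cons (nat_lit 448) (nat_lit 95) Rl.nil) C2_11 = true := by decide +kernel
def wf2_12 : wfC (nat_lit 61) (nat_lit 5) C2_12 = true := by decide +kernel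
def rf2_12 : rfCk (nat_lit 60) (nat_lit 5) (nat_lit 61) (nat_lit 5) (nat_lit 6) (nat_lit 524288) (nat_lit 12) TL2 CL1 CL2 = true := by decide +kernel

end Pool.Agent.NNr.R11_1_4_5
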