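import Pool.Agent.NNr.R11_1_4_5.D1
import Pool.Agent.NNr.R11_1_4_5.D2
import Pool.Agent.NNr.R11_1_4_5.D3

set_option linter.all false
set_option maxRecDepth 1000000
namespace Pool.Agent.NNr.R11_1_4_5

open Pool.Agent.NNe

def st2_12_0 : starCk (nat_lit 61) (nat_lit 5) (nat_lit 1) (nat_lit 2) (nat_lit 86) (nat_lit 372) (nat_lit 16) C2_12 = true := by decide +kernel
def sc2_12 : stCov (nat_lit 1) (nat_lit 372) (Rl.cons (nat_lit 372) (nat_lit 86) Rl.nil) C2_12 = true := by decide +kernel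
def wf2_13 : wfC (nat_lit 61) (nat_lit 5) C2_13 = true := by decide +kernel
def rf2_13 : rfCk (nat_lit 60) (nat_lit 5) (nat_lit 61) (nat_lit 5) (nat_lit 6) (nat_lit 524288) (nat_lit 13) TL2 CL1 CL2 = true := by decide +kernel
def st2_13_0 : starCk (nat_lit 61) (nat_lit 5) (nat_lit 1) (nat_lit 2) (nat_lit 74) (nat_lit 187) (nat_lit 256) C2_13 = true := by decide +kernel
def sc2_13 : stCov (nat_lit 2) (nat_lit 187) (Rl.cons (nat_lit 187) (nat_lit 74) Rl.nil) C2_13 = true := by decide +kernel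
def wf2_14 : wfC (nat_lit 61) (nat_lit 5) C2_14 = true := by decide +kernel
def rf2_14 : rfCk (nat_lit 60) (nat_lit 5) (nat_lit 61) (nat_lit 5) (nat_lit 6) (nat_lit 524288) (nat_lit 14) TL2 CL1 CL2 = true := by decide +kernel
def st2_14_0 : starCk (nat_lit 61) (nat_lit 5) (nat_lit 1) (nat_lit 2) (nat_lit 14) (nat_lit 67) (nat_lit 16) C2_14 = true := by decide +kernel
def sc2_14 : stCov (nat_lit 1) (nat_lit 67) (Rl.cons (nat_lit 67) (nat_lit 14) Rl.nil) C2_14 = true := by decide +kernel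
def ti2_0 : tileCk (nat_lit 61) (nat_lit 5) (nat_lit 2) (nat_lit 2) (nat_lit 195) (nat_lit 11) (nat_lit 16) ZL2_0 CL2 = true := by decide +kernel
def zl2_0 : zlOK (nat_lit 195) ZL2_0 = true := by decide +kernel
def ti2_1 : tileCk (nat_lit 61) (nat_lit 5) (nat_lit 2) (nat_lit 2) (nat_lit 30) (nat_lit 11) (nat_lit 16) ZL2_1 CL2 = true := by decide +kernel
def zl2_1 : zlOK (nat_lit 30) ZL2_1 = true := by decide +kernel
def ti2_2 : tileCk (nat_lit 61) (nat_lit 5) (nat_lit 2) (nat_lit 2) (nat_lit 79) (nat_lit 11) (nat_lit 16) ZL2_2 CL2 = true := by decide +kernel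
def zl2_2 : zlOK (nat_lit 79) ZL2_2 = true := by decide +kernel
def ti2_3 : tileCk (nat_lit 61) (nat_lit 5) (nat_lit 2) (nat_lit 2) (nat_lit 23) (nat_lit 11) (nat_lit 16) ZL2_3 CL2 = true := by decide +kernel
def zl2_3 : zlOK (nat_lit 23) ZL2_3 = true := by decide +kernel
def tc2_0 : tiCov (nat_lit 1) (nat_lit 0) ZZ2 C2_0 = true := by decide +kernel
def tc2_1 : tiCov (nat_lit 1) (nat_lit 1) ZZ2 C2_1 = true := by decide +kernel
def tc2_2 : tiCov (nat_lit 1) (nat_lit 2) ZZ2 C2_2 = true := by decide +kernel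
def tc2_3 : tiCov (nat_lit 1) (nat_lit 3) ZZ2 C2_3 = true := by decide +kernel
def tc2_4 : tiCov (nat_lit 1) (nat_lit 4) ZZ2 C2_4 = true := by decide +kernel
def tc2_5 : tiCov (nat_lit 1) (nat_lit 5) ZZ2 C2_5 = true := by decide +kernel
def tc2_10 : tiCov (nat_lit 1) (nat_lit 10) ZZ2 C2_10 = true := by decide +kernel
def tc2_11 : tiCov (nat_lit 1) (nat_lit 11) ZZ2 C2_11 = true := by decide +kernel
def tc2_12 : tiCov (nat_lit 1) (nat_lit 12) ZZ2 C2_12 = true := by decide +kernel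
def tc2_13 : tiCov (nat_lit 1) (nat_lit 13) ZZ2 C2_13 = true := by decide +kernel
def tc2_14 : tiCov (nat_lit 1) (nat_lit 14) ZZ2 C2_14 = true := by decide +kernel
def wf3_0 : wfC (nat_lit 61) (nat_lit 7) C3_0 = true := by decide +kernel
def rf3_0 : rfCk (nat_lit 61) (nat_lit 5) (nat_lit 61) (nat_lit 7) (nat_lit 4) (nat_lit 1048576) (nat_lit 0) TL3 CL2 CL3 = true := by decide +kernel
def st3_0_0 : starCk (nat_lit 61) (nat_lit 7) (nat_lit 1) (nat_lit 3) (nat_lit 132) (nat_lit 0) (nat_lit 256) C3_0 = true := by decide +kernel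
def sc3_0 : stCov (nat_lit 2) (nat_lit 0) (Rl.cons (nat_lit 0) (nat_lit 132) Rl.nil) C3_0 = true := by decide +kernel
def wf3_1 : wfC (nat_lit 61) (nat_lit 7) C3_1 = true := by decide +kernel
def rf3_1 : rfCk (nat_lit 61) (nat_lit 5) (nat_lit 61) (nat_lit 7) (nat_lit 4) (nat_lit 1048576) (nat_lit 1) TL3 CL2 CL3 = true := by decide +kernel
def st3_1_0 : starCk (nat_lit 61) (nat_lit 7) (nat_lit 1) (nat_lit 3) (nat_lit 18) (nat_lit 0) (nat_lit 16) C3_1 = true := by decide +kernel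
def sc3_1 : stCov (nat_lit 1) (nat_lit 0) (Rl.cons (nat_lit 0) (nat_lit 18) Rl.nil) C3_1 = true := by decide +kernel
def wf3_2 : wfC (nat_lit 61) (nat_lit 7) C3_2 = true := by decide +kernel
def rf3_2 : rfCk (nat_lit 61) (nat_lit 5) (nat_lit 61) (nat_lit 7) (nat_lit 4) (nat_lit 1048576) (nat_lit 2) TL3 CL2 CL3 = true := by decide +kernel
def st3_2_0 : starCk (nat_lit 61) (nat_lit 7) (nat_lit 1) (nat_lit 3) (nat_lit 30) (nat_lit 194) (nat_lit 16) C3_2 = true := by decide +kernel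
def sc3_2 : stCov (nat_lit 1) (nat_lit 194) (Rl.cons (nat_lit 194) (nat_lit 30) Rl.nil) C3_2 = true := by decide +kernel
def wf3_3 : wfC (nat_lit 61) (nat_lit 7) C3_3 = true := by decide +kernel
def rf3_3 : rfCk (nat_lit 61) (nat_lit 5) (nat_lit 61) (nat_lit 7) (nat_lit 4) (nat_lit 1048576) (nat_lit 3) TL3 CL2 CL3 = true := by decide +kernel
def st3_3_0 : starCk (nat_lit 61) (nat_lit 7) (nat_lit 1) (nat_lit 3) (nat_lit 47) (nat_lit 380) (nat_lit 16) C3_3 = true := by decide +kernel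
def sc3_3 : stCov (nat_lit 1) (nat_lit 380) (Rl.cons (nat_lit 380) (nat_lit 47) Rl.nil) C3_3 = true := by decide +kernel
def wf3_4 : wfC (nat_lit 61) (nat_lit 7) C3_4 = true := by decide +kernel
def rf3_4 : rfCk (nat_lit 61) (nat_lit 5) (nat_lit 61) (nat_lit 7) (nat_lit 4) (nat_lit 1048576) (nat_lit 4) TL3 CL2 CL3 = true := by decide +kernel

end Pool.Agent.NNr.R11_1_4_5
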