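import Pool.Agent.NNr.R11_1_4_5.D2
import Pool.Agent.NNr.R11_1_4_5.D3

set_option linter.all false
set_option maxRecDepth 1000000
namespace Pool.Agent.NNr.R11_1_4_5

open Pool.Agent.NNe

def st3_4_0 : starCk (nat_lit 61) (nat_lit 7) (nat_lit 1) (nat_lit 3) (nat_lit 76) (nat_lit 546) (nat_lit 256) C3_4 = true := by decide +kernel
def sc3_4 : stCov (nat_lit 2) (nat_lit 546) (Rl.cons (nat_lit 546) (nat_lit 76) Rl.nil) C3_4 = true := by decide +kernel
def wf3_5 : wfC (nat_lit 61) (nat_lit 7) C3_5 = true := by decide +kernel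
def rf3_5 : rfCk (nat_lit 61) (nat_lit 5) (nat_lit 61) (nat_lit 7) (nat_lit 4) (nat_lit 1048576) (nat_lit 5) TL3 CL2 CL3 = true := by decide +kernel
def st3_5_0 : starCk (nat_lit 61) (nat_lit 7) (nat_lit 1) (nat_lit 3) (nat_lit 23) (nat_lit 136) (nat_lit 16) C3_5 = true := by decide +kernel
def sc3_5 : stCov (nat_lit 1) (nat_lit 136) (Rl.cons (nat_lit 136) (nat_lit 23) Rl.nil) C3_5 = true := by decide +kernel
def wf3_10 : wfC (nat_lit 61) (nat_lit 7) C3_10 = true := by decide +kernel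
def rf3_10 : rfCk (nat_lit 61) (nat_lit 5) (nat_lit 61) (nat_lit 7) (nat_lit 4) (nat_lit 1048576) (nat_lit 10) TL3 CL2 CL3 = true := by decide +kernel
def st3_10_0 : starCk (nat_lit 61) (nat_lit 7) (nat_lit 1) (nat_lit 3) (nat_lit 481) (nat_lit 1302) (nat_lit 4096) C3_10 = true := by decide +kernel
def st3_10_1 : starCk (nat_lit 61) (nat_lit 7) (nat_lit 1) (nat_lit 3) (nat_lit 481) (nat_lit 1783) (nat_lit 4096) C3_10 = true := by decide +kernel
def sc3_10 : stCov (nat_lit 3) (nat_lit 1302) (Rl.cons (nat_lit 1302) (nat_lit 481) (Rl.cons (nat_lit 1783) (nat_lit 481) Rl.nil)) C3_10 = true := by decide +kernel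
def wf3_11 : wfC (nat_lit 61) (nat_lit 7) C3_11 = true := by decide +kernel
def rf3_11 : rfCk (nat_lit 61) (nat_lit 5) (nat_lit 61) (nat_lit 7) (nat_lit 4) (nat_lit 1048576) (nat_lit 11) TL3 CL2 CL3 = true := by decide +kernel

end Pool.Agent.NNr.R11_1_4_5
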