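import Pool.Agent.NNr.R11_1_4_5.D2
import Pool.Agent.NNr.R11_1_4_5.D3

set_option linter.all false
set_option maxRecDepth 1000000
namespace Pool.Agent.NNr.R11_1_4_5

open Pool.Agent.NNe

def st3_11_0 : starCk (nat_lit 61) (nat_lit 7) (nat_lit 1) (nat_lit 3) (nat_lit 119) (nat_lit 891) (nat_lit 16) C3_11 = true := by decide +kernel
def sc3_11 : stCov (nat_lit 1) (nat_lit 891) (Rl.cons (nat_lit 891) (nat_lit 119) Rl.nil) C3_11 = true := by decide +kernel
def wf3_12 : wfC (nat_lit 61) (nat_lit 7) C3_12 = true := by decide +kernel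
def rf3_12 : rfCk (nat_lit 61) (nat_lit 5) (nat_lit 61) (nat_lit 7) (nat_lit 4) (nat_lit 1048576) (nat_lit 12) TL3 CL2 CL3 = true := by decide +kernel
def st3_12_0 : starCk (nat_lit 61) (nat_lit 7) (nat_lit 1) (nat_lit 3) (nat_lit 109) (nat_lit 724) (nat_lit 16) C3_12 = true := by decide +kernel
def sc3_12 : stCov (nat_lit 1) (nat_lit 724) (Rl.cons (nat_lit 724) (nat_lit 109) Rl.nil) C3_12 = true := by decide +kernel
def wf3_13 : wfC (nat_lit 61) (nat_lit 7) C3_13 = true := by decide +kernel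
def rf3_13 : rfCk (nat_lit 61) (nat_lit 5) (nat_lit 61) (nat_lit 7) (nat_lit 4) (nat_lit 1048576) (nat_lit 13) TL3 CL2 CL3 = true := by decide +kernel
def st3_13_0 : starCk (nat_lit 61) (nat_lit 7) (nat_lit 1) (nat_lit 3) (nat_lit 110) (nat_lit 351) (nat_lit 256) C3_13 = true := by decide +kernel
def sc3_13 : stCov (nat_lit 2) (nat_lit 351) (Rl.cons (nat_lit 351) (nat_lit 110) Rl.nil) C3_13 = true := by decide +kernel
def wf3_14 : wfC (nat_lit 61) (nat_lit 7) C3_14 = true := by decide +kernel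
def rf3_14 : rfCk (nat_lit 61) (nat_lit 5) (nat_lit 61) (nat_lit 7) (nat_lit 4) (nat_lit 1048576) (nat_lit 14) TL3 CL2 CL3 = true := by decide +kernel
def st3_14_0 : starCk (nat_lit 61) (nat_lit 7) (nat_lit 1) (nat_lit 3) (nat_lit 14) (nat_lit 138) (nat_lit 16) C3_14 = true := by decide +kernel
def sc3_14 : stCov (nat_lit 1) (nat_lit 138) (Rl.cons (nat_lit 138) (nat_lit 14) Rl.nil) C3_14 = true := by decide +kernel

end Pool.Agent.NNr.R11_1_4_5
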