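import Pool.Agent.NNr.R11_1_4_5.D3
import Pool.Agent.NNr.R11_1_4_5.D4

set_option linter.all false
set_option maxRecDepth 1000000
namespace Pool.Agent.NNr.R11_1_4_5

open Pool.Agent.NNe

def ti3_0 : tileCk (nat_lit 61) (nat_lit 7) (nat_lit 2) (nat_lit 3) (nat_lit 168) (nat_lit 11) (nat_lit 16) ZL3_0 CL3 = true := by decide +kernel
def zl3_0 : zlOK (nat_lit 168) ZL3_0 = true := by decide +kernel
def ti3_1 : tileCk (nat_lit 61) (nat_lit 7) (nat_lit 2) (nat_lit 3) (nat_lit 24) (nat_lit 11) (nat_lit 16) ZL3_1 CL3 = true := by decide +kernel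
def zl3_1 : zlOK (nat_lit 24) ZL3_1 = true := by decide +kernel
def ti3_2 : tileCk (nat_lit 61) (nat_lit 7) (nat_lit 2) (nat_lit 3) (nat_lit 78) (nat_lit 11) (nat_lit 16) ZL3_2 CL3 = true := by decide +kernel
def zl3_2 : zlOK (nat_lit 78) ZL3_2 = true := by decide +kernel
def ti3_3 : tileCk (nat_lit 61) (nat_lit 7) (nat_lit 2) (nat_lit 3) (nat_lit 23) (nat_lit 11) (nat_lit 16) ZL3_3 CL3 = true := by decide +kernel
def zl3_3 : zlOK (nat_lit 23) ZL3_3 = true := by decide +kernel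
def ti3_4 : tileCk (nat_lit 61) (nat_lit 7) (nat_lit 2) (nat_lit 3) (nat_lit 112) (nat_lit 11) (nat_lit 16) ZL3_4 CL3 = true := by decide +kernel
def zl3_4 : zlOK (nat_lit 112) ZL3_4 = true := by decide +kernel
def tc3_0 : tiCov (nat_lit 1) (nat_lit 0) ZZ3 C3_0 = true := by decide +kernel
def tc3_1 : tiCov (nat_lit 1) (nat_lit 1) ZZ3 C3_1 = true := by decide +kernel
def tc3_2 : tiCov (nat_lit 1) (nat_lit 2) ZZ3 C3_2 = true := by decide +kernel
def tc3_3 : tiCov (nat_lit 1) (nat_lit 3) ZZ3 C3_3 = true := by decide +kernel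
def tc3_4 : tiCov (nat_lit 1) (nat_lit 4) ZZ3 C3_4 = true := by decide +kernel
def tc3_5 : tiCov (nat_lit 1) (nat_lit 5) ZZ3 C3_5 = true := by decide +kernel
def tc3_10 : tiCov (nat_lit 1) (nat_lit 10) ZZ3 C3_10 = true := by decide +kernel
def tc3_11 : tiCov (nat_lit 1) (nat_lit 11) ZZ3 C3_11 = true := by decide +kernel
def tc3_12 : tiCov (nat_lit 1) (nat_lit 12) ZZ3 C3_12 = true := by decide +kernel
def tc3_13 : tiCov (nat_lit 1) (nat_lit 13) ZZ3 C3_13 = true := by decide +kernel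
def tc3_14 : tiCov (nat_lit 1) (nat_lit 14) ZZ3 C3_14 = true := by decide +kernel
def wf4_0 : wfC (nat_lit 59) (nat_lit 15) C4_0 = true := by decide +kernel
def rf4_0 : rfCk (nat_lit 61) (nat_lit 7) (nat_lit 59) (nat_lit 15) (nat_lit 9) (nat_lit 0) (nat_lit 0) TL4 CL3 CL4 = true := by decide +kernel
def st4_0_0 : starCk (nat_lit 59) (nat_lit 15) (nat_lit 1) (nat_lit 7) (nat_lit 21) (nat_lit 0) (nat_lit 256) C4_0 = true := by decide +kernel
def sc4_0 : stCov (nat_lit 2) (nat_lit 0) (Rl.cons (nat_lit 0) (nat_lit 21) Rl.nil) C4_0 = true := by decide +kernel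
def wf4_1 : wfC (nat_lit 59) (nat_lit 15) C4_1 = true := by decide +kernel
def rf4_1 : rfCk (nat_lit 61) (nat_lit 7) (nat_lit 59) (nat_lit 15) (nat_lit 9) (nat_lit 0) (nat_lit 1) TL4 CL3 CL4 = true := by decide +kernel
def st4_1_0 : starCk (nat_lit 59) (nat_lit 15) (nat_lit 1) (nat_lit 7) (nat_lit 10) (nat_lit 0) (nat_lit 16) C4_1 = true := by decide +kernel
def sc4_1 : stCov (nat_lit 1) (nat_lit 0) (Rl.cons (nat_lit 0) (nat_lit 10) Rl.nil) C4_1 = true := by decide +kernel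
def wf4_2 : wfC (nat_lit 59) (nat_lit 15) C4_2 = true := by decide +kernel
def rf4_2 : rfCk (nat_lit 61) (nat_lit 7) (nat_lit 59) (nat_lit 15) (nat_lit 9) (nat_lit 0) (nat_lit 2) TL4 CL3 CL4 = true := by decide +kernel
def st4_2_0 : starCk (nat_lit 59) (nat_lit 15) (nat_lit 1) (nat_lit 7) (nat_lit 10) (nat_lit 30) (nat_lit 16) C4_2 = true := by decide +kernel
def sc4_2 : stCov (nat_lit 1) (nat_lit 30) (Rl.cons (nat_lit 30) (nat_lit 10) Rl.nil) C4_2 = true := by decide +kernel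
def wf4_3 : wfC (nat_lit 59) (nat_lit 15) C4_3 = true := by decide +kernel
def rf4_3 : rfCk (nat_lit 61) (nat_lit 7) (nat_lit 59) (nat_lit 15) (nat_lit 9) (nat_lit 0) (nat_lit 3) TL4 CL3 CL4 = true := by decide +kernel
def st4_3_0 : starCk (nat_lit 59) (nat_lit 15) (nat_lit 1) (nat_lit 7) (nat_lit 34) (nat_lit 113) (nat_lit 16) C4_3 = true := by decide +kernel
def sc4_3 : stCov (nat_lit 1) (nat_lit 113) (Rl.cons (nat_lit 113) (nat_lit 34) Rl.nil) C4_3 = true := by decide +kernel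
def wf4_4 : wfC (nat_lit 59) (nat_lit 15) C4_4 = true := by decide +kernel
def rf4_4 : rfCk (nat_lit 61) (nat_lit 7) (nat_lit 59) (nat_lit 15) (nat_lit 9) (nat_lit 0) (nat_lit 4) TL4 CL3 CL4 = true := by decide +kernel
def st4_4_0 : starCk (nat_lit 59) (nat_lit 15) (nat_lit 1) (nat_lit 7) (nat_lit 23) (nat_lit 174) (nat_lit 256) C4_4 = true := by decide +kernel
def sc4_4 : stCov (nat_lit 2) (nat_lit 174) (Rl.cons (nat_lit 174) (nat_lit 23) Rl.nil) C4_4 = true := by decide +kernel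
def wf4_5 : wfC (nat_lit 59) (nat_lit 15) C4_5 = true := by decide +kernel
def rf4_5 : rfCk (nat_lit 61) (nat_lit 7) (nat_lit 59) (nat_lit 15) (nat_lit 9) (nat_lit 0) (nat_lit 5) TL4 CL3 CL4 = true := by decide +kernel
def st4_5_0 : starCk (nat_lit 59) (nat_lit 15) (nat_lit 1) (nat_lit 7) (nat_lit 14) (nat_lit 44) (nat_lit 16) C4_5 = true := by decide +kernel
def sc4_5 : stCov (nat_lit 1) (nat_lit 44) (Rl.cons (nat_lit 44) (nat_lit 14) Rl.nil) C4_5 = true := by decide +kernel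
def wf4_10 : wfC (nat_lit 59) (nat_lit 15) C4_10 = true := by decide +kernel
def rf4_10 : rfCk (nat_lit 61) (nat_lit 7) (nat_lit 59) (nat_lit 15) (nat_lit 9) (nat_lit 0) (nat_lit 10) TL4 CL3 CL4 = true := by decide +kernel
def st4_10_0 : starCk (nat_lit 59) (nat_lit 15) (nat_lit 1) (nat_lit 7) (nat_lit 228) (nat_lit 329) (nat_lit 4096) C4_10 = true := by decide +kernel
def sc4_10 : stCov (nat_lit 3) (nat_lit 329) (Rl.cons (nat_lit 329) (nat_lit 228) Rl.nil) C4_10 = true := by decide +kernel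
def wf4_11 : wfC (nat_lit 59) (nat_lit 15) C4_11 = true := by decide +kernel

end Pool.Agent.NNr.R11_1_4_5
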