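import Pool.Agent.NNe.Chk

set_option linter.all false
set_option maxRecDepth 1000000
namespace Pool.Agent.NNr.R11_1_4_5

open Pool.Agent.NNe

noncomputable def C6_0 : Cd := (Cd.mk (nat_lit 0) (nat_lit 4) (nat_lit 1024) (nat_lit 0) (nat_lit 0) (nat_lit 0) (nat_lit 0) Sl.nil)
noncomputable def C6_1 : Cd := (Cd.mk (nat_lit 0) (nat_lit 5) (nat_lit 80) (nat_lit 0) (nat_lit 0) (nat_lit 0) (nat_lit 0) Sl.nil)
noncomputable def C6_2 : Cd := (Cd.mk (nat_lit 0) (nat_lit 5) (nat_lit 785) (nat_lit 0) (nat_lit 0) (nat_lit 0) (nat_lit 0) Sl.nil)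
noncomputable def C6_3 : Cd := (Cd.mk (nat_lit 0) (nat_lit 6) (nat_lit 546) (nat_lit 0) (nat_lit 0) (nat_lit 0) (nat_lit 0) Sl.nil)
noncomputable def C6_4 : Cd := (Cd.mk (nat_lit 0) (nat_lit 7) (nat_lit 307) (nat_lit 0) (nat_lit 0) (nat_lit 0) (nat_lit 0) Sl.nil)
noncomputable def C6_5 : Cd := (Cd.mk (nat_lit 0) (nat_lit 8) (nat_lit 68) (nat_lit 0) (nat_lit 0) (nat_lit 0) (nat_lit 0) Sl.nil)
noncomputable def C6_6 : Cd := (Cd.mk (nat_lit 0) (nat_lit 8) (nat_lit 773) (nat_lit 0) (nat_lit 0) (nat_lit 0) (nat_lit 0) Sl.nil)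
noncomputable def C6_7 : Cd := (Cd.mk (nat_lit 0) (nat_lit 9) (nat_lit 534) (nat_lit 0) (nat_lit 0) (nat_lit 0) (nat_lit 0) Sl.nil)
noncomputable def C6_8 : Cd := (Cd.mk (nat_lit 0) (nat_lit 10) (nat_lit 295) (nat_lit 0) (nat_lit 0) (nat_lit 0) (nat_lit 0) Sl.nil)
noncomputable def C6_9 : Cd := (Cd.mk (nat_lit 0) (nat_lit 11) (nat_lit 56) (nat_lit 0) (nat_lit 0) (nat_lit 0) (nat_lit 0) Sl.nil)
noncomputable def C6_10 : Cd := (Cd.mk (nat_lit 0) (nat_lit 3) (nat_lit 4608) (nat_lit 0) (nat_lit 0) (nat_lit 0) (nat_lit 0) Sl.nil)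
noncomputable def C6_11 : Cd := (Cd.mk (nat_lit 0) (nat_lit 4) (nat_lit 4369) (nat_lit 0) (nat_lit 0) (nat_lit 0) (nat_lit 0) Sl.nil)
noncomputable def C6_12 : Cd := (Cd.mk (nat_lit 0) (nat_lit 5) (nat_lit 4130) (nat_lit 0) (nat_lit 0) (nat_lit 0) (nat_lit 0) Sl.nil)
noncomputable def C6_13 : Cd := (Cd.mk (nat_lit 0) (nat_lit 7) (nat_lit 4357) (nat_lit 0) (nat_lit 0) (nat_lit 0) (nat_lit 0) Sl.nil)
noncomputable def C6_14 : Cd := (Cd.mk (nat_lit 0) (nat_lit 8) (nat_lit 4118) (nat_lit 0) (nat_lit 0) (nat_lit 0) (nat_lit 0) Sl.nil)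
noncomputable def C6_15 : Cd := (Cd.mk (nat_lit 0) (nat_lit 11) (nat_lit 4106) (nat_lit 0) (nat_lit 0) (nat_lit 0) (nat_lit 0) Sl.nil)
noncomputable def CL6 : Cl := (Cl.cons C6_0 (Cl.cons C6_1 (Cl.cons C6_2 (Cl.cons C6_3 (Cl.cons C6_4 (Cl.cons C6_5 (Cl.cons C6_6 (Cl.cons C6_7 (Cl.cons C6_8 (Cl.cons C6_9 (Cl.cons C6_10 (Cl.cons C6_11 (Cl.cons C6_12 (Cl.cons C6_13 (Cl.cons C6_14 (Cl.cons C6_15 Cl.nil))))))))))))))))
noncomputable def AL6_0 : Nat := (nat_lit 0xa)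
noncomputable def A46_0 : Nat := (nat_lit 0)
noncomputable def IX6_0 : Nat := (nat_lit 0)
noncomputable def OL6_0 : Nat := (nat_lit 0)
noncomputable def AL6_1 : Nat := (nat_lit 0)
noncomputable def A46_1 : Nat := (nat_lit 0)
noncomputable def IX6_1 : Nat := (nat_lit 0)
noncomputable def OL6_1 : Nat := (nat_lit 0)
noncomputable def AL6_2 : Nat := (nat_lit 0)
noncomputable def A46_2 : Nat := (nat_lit 0)
noncomputable def IX6_2 : Nat := (nat_lit 0)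
noncomputable def OL6_2 : Nat := (nat_lit 0)
noncomputable def AL6_3 : Nat := (nat_lit 0)
noncomputable def A46_3 : Nat := (nat_lit 0)
noncomputable def IX6_3 : Nat := (nat_lit 0)
noncomputable def OL6_3 : Nat := (nat_lit 0)
noncomputable def AL6_4 : Nat := (nat_lit 0)
noncomputable def A46_4 : Nat := (nat_lit 0)
noncomputable def IX6_4 : Nat := (nat_lit 0)
noncomputable def OL6_4 : Nat := (nat_lit 0)
noncomputable def AL6_5 : Nat := (nat_lit 0)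
noncomputable def A46_5 : Nat := (nat_lit 0)
noncomputable def IX6_5 : Nat := (nat_lit 0)
noncomputable def OL6_5 : Nat := (nat_lit 0)
noncomputable def AL6_6 : Nat := (nat_lit 0)
noncomputable def A46_6 : Nat := (nat_lit 0)
noncomputable def IX6_6 : Nat := (nat_lit 0)
noncomputable def OL6_6 : Nat := (nat_lit 0)
noncomputable def AL6_7 : Nat := (nat_lit 0)
noncomputable def A46_7 : Nat := (nat_lit 0)
noncomputable def IX6_7 : Nat := (nat_lit 0)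
noncomputable def OL6_7 : Nat := (nat_lit 0)
noncomputable def AL6_8 : Nat := (nat_lit 0)
noncomputable def A46_8 : Nat := (nat_lit 0)
noncomputable def IX6_8 : Nat := (nat_lit 0)
noncomputable def OL6_8 : Nat := (nat_lit 0)
noncomputable def AL6_9 : Nat := (nat_lit 0)
noncomputable def A46_9 : Nat := (nat_lit 0)
noncomputable def IX6_9 : Nat := (nat_lit 0)
noncomputable def OL6_9 : Nat := (nat_lit 0)
noncomputable def AL6_10 : Nat := (nat_lit 0)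
noncomputable def A46_10 : Nat := (nat_lit 0)
noncomputable def IX6_10 : Nat := (nat_lit 0)
noncomputable def OL6_10 : Nat := (nat_lit 0)
noncomputable def AL6_11 : Nat := (nat_lit 0)
noncomputable def A46_11 : Nat := (nat_lit 0)
noncomputable def IX6_11 : Nat := (nat_lit 0)
noncomputable def OL6_11 : Nat := (nat_lit 0)
noncomputable def AL6_12 : Nat := (nat_lit 0)
noncomputable def A46_12 : Nat := (nat_lit 0)
noncomputable def IX6_12 : Nat := (nat_lit 0)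
noncomputable def OL6_12 : Nat := (nat_lit 0)
noncomputable def AL6_13 : Nat := (nat_lit 0)
noncomputable def A46_13 : Nat := (nat_lit 0)
noncomputable def IX6_13 : Nat := (nat_lit 0)
noncomputable def OL6_13 : Nat := (nat_lit 0)
noncomputable def AL6_14 : Nat := (nat_lit 0)
noncomputable def A46_14 : Nat := (nat_lit 0)
noncomputable def IX6_14 : Nat := (nat_lit 0)
noncomputable def OL6_14 : Nat := (nat_lit 0)
noncomputable def AL6_15 : Nat := (nat_lit 0)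
noncomputable def A46_15 : Nat := (nat_lit 0)
noncomputable def IX6_15 : Nat := (nat_lit 0)
noncomputable def OL6_15 : Nat := (nat_lit 0)
noncomputable def TL6 : Tl := (Tl.cons (Tr.mk AL6_0 A46_0 IX6_0 OL6_0) (Tl.cons (Tr.mk AL6_1 A46_1 IX6_1 OL6_1) (Tl.cons (Tr.mk AL6_2 A46_2 IX6_2 OL6_2) (Tl.cons (Tr.mk AL6_3 A46_3 IX6_3 OL6_3) (Tl.cons (Tr.mk AL6_4 A46_4 IX6_4 OL6_4) (Tl.cons (Tr.mk AL6_5 A46_5 IX6_5 OL6_5) (Tl.cons (Tr.mk AL6_6 A46_6 IX6_6 OL6_6) (Tl.cons (Tr.mk AL6_7 A46_7 IX6_7 OL6_7) (Tl.cons (Tr.mk AL6_8 A46_8 IX6_8 OL6_8) (Tl.cons (Tr.mk AL6_9 A46_9 IX6_9 OL6_9) (Tl.cons (Tr.mk AL6_10 A46_10 IX6_10 OL6_10) (Tl.cons (Tr.mk AL6_11 A46_11 IX6_11 OL6_11) (Tl.cons (Tr.mk AL6_12 A46_12 IX6_12 OL6_12) (Tl.cons (Tr.mk AL6_13 A46_13 IX6_13 OL6_13) (Tl.cons (Tr.mk AL6_14 A46_14 IX6_14 OL6_14) (Tl.cons (Tr.mk AL6_15 A46_15 IX6_15 OL6_15) Tl.nil))))))))))))))))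

end Pool.Agent.NNr.R11_1_4_5
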