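import Pool.Agent.NNr.R11_1_4_5.D0
import Pool.Agent.NNr.R11_1_4_5.D1
import Pool.Agent.NNr.R11_1_4_5.D2
import Pool.Agent.NNr.R11_1_4_5.D3
import Pool.Agent.NNr.R11_1_4_5.D4
import Pool.Agent.NNr.R11_1_4_5.D5
import Pool.Agent.NNr.R11_1_4_5.D6
import Pool.Agent.NNe.Slots

set_option linter.all false
set_option maxRecDepth 1000000
namespace Pool.Agent.NNr.R11_1_4_5

open Pool.Agent.NNe

def rf4_11 : rfCk (nat_lit 61) (nat_lit 7) (nat_lit 59) (nat_lit 15) (nat_lit 9) (nat_lit 0) (nat_lit 11) TL4 CL3 CL4 = true := by decide +kernel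
def st4_11_0 : starCk (nat_lit 59) (nat_lit 15) (nat_lit 1) (nat_lit 7) (nat_lit 70) (nat_lit 316) (nat_lit 16) C4_11 = true := by decide +kernel
def sc4_11 : stCov (nat_lit 1) (nat_lit 316) (Rl.cons (nat_lit 316) (nat_lit 70) Rl.nil) C4_11 = true := by decide +kernel
def wf4_12 : wfC (nat_lit 59) (nat_lit 15) C4_12 = true := by decide +kernel
def rf4_12 : rfCk (nat_lit 61) (nat_lit 7) (nat_lit 59) (nat_lit 15) (nat_lit 9) (nat_lit 0) (nat_lit 12) TL4 CL3 CL4 = true := by decide +kernel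
def st4_12_0 : starCk (nat_lit 59) (nat_lit 15) (nat_lit 1) (nat_lit 7) (nat_lit 72) (nat_lit 264) (nat_lit 16) C4_12 = true := by decide +kernel
def sc4_12 : stCov (nat_lit 1) (nat_lit 264) (Rl.cons (nat_lit 264) (nat_lit 72) Rl.nil) C4_12 = true := by decide +kernel
def wf4_13 : wfC (nat_lit 59) (nat_lit 15) C4_13 = true := by decide +kernel
def rf4_13 : rfCk (nat_lit 61) (nat_lit 7) (nat_lit 59) (nat_lit 15) (nat_lit 9) (nat_lit 0) (nat_lit 13) TL4 CL3 CL4 = true := by decide +kernel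
def st4_13_0 : starCk (nat_lit 59) (nat_lit 15) (nat_lit 1) (nat_lit 7) (nat_lit 30) (nat_lit 100) (nat_lit 256) C4_13 = true := by decide +kernel
def sc4_13 : stCov (nat_lit 2) (nat_lit 100) (Rl.cons (nat_lit 100) (nat_lit 30) Rl.nil) C4_13 = true := by decide +kernel
def wf4_14 : wfC (nat_lit 59) (nat_lit 15) C4_14 = true := by decide +kernel
def rf4_14 : rfCk (nat_lit 61) (nat_lit 7) (nat_lit 59) (nat_lit 15) (nat_lit 9) (nat_lit 0) (nat_lit 14) TL4 CL3 CL4 = true := by decide +kernel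
def st4_14_0 : starCk (nat_lit 59) (nat_lit 15) (nat_lit 1) (nat_lit 7) (nat_lit 7) (nat_lit 48) (nat_lit 16) C4_14 = true := by decide +kernel
def sc4_14 : stCov (nat_lit 1) (nat_lit 48) (Rl.cons (nat_lit 48) (nat_lit 7) Rl.nil) C4_14 = true := by decide +kernel
def ti4_0 : tileCk (nat_lit 59) (nat_lit 15) (nat_lit 2) (nat_lit 7) (nat_lit 88) (nat_lit 11) (nat_lit 16) ZL4_0 CL4 = true := by decide +kernel
def zl4_0 : zlOK (nat_lit 88) ZL4_0 = true := by decide +kernel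
def ti4_1 : tileCk (nat_lit 59) (nat_lit 15) (nat_lit 2) (nat_lit 7) (nat_lit 11) (nat_lit 11) (nat_lit 16) ZL4_1 CL4 = true := by decide +kernel
def zl4_1 : zlOK (nat_lit 11) ZL4_1 = true := by decide +kernel
def ti4_2 : tileCk (nat_lit 59) (nat_lit 15) (nat_lit 2) (nat_lit 7) (nat_lit 59) (nat_lit 11) (nat_lit 16) ZL4_2 CL4 = true := by decide +kernel
def zl4_2 : zlOK (nat_lit 59) ZL4_2 = true := by decide +kernel
def ti4_3 : tileCk (nat_lit 59) (nat_lit 15) (nat_lit 2) (nat_lit 7) (nat_lit 21) (nat_lit 11) (nat_lit 16) ZL4_3 CL4 = true := by decide +kernel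
def zl4_3 : zlOK (nat_lit 21) ZL4_3 = true := by decide +kernel
def ti4_4 : tileCk (nat_lit 59) (nat_lit 15) (nat_lit 2) (nat_lit 7) (nat_lit 66) (nat_lit 11) (nat_lit 16) ZL4_4 CL4 = true := by decide +kernel
def zl4_4 : zlOK (nat_lit 66) ZL4_4 = true := by decide +kernel
def tc4_0 : tiCov (nat_lit 1) (nat_lit 0) ZZ4 C4_0 = true := by decide +kernel
def tc4_1 : tiCov (nat_lit 1) (nat_lit 1) ZZ4 C4_1 = true := by decide +kernel
def tc4_2 : tiCov (nat_lit 1) (nat_lit 2) ZZ4 C4_2 = true := by decide +kernel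
def tc4_3 : tiCov (nat_lit 1) (nat_lit 3) ZZ4 C4_3 = true := by decide +kernel
def tc4_4 : tiCov (nat_lit 1) (nat_lit 4) ZZ4 C4_4 = true := by decide +kernel
def tc4_5 : tiCov (nat_lit 1) (nat_lit 5) ZZ4 C4_5 = true := by decide +kernel
def tc4_10 : tiCov (nat_lit 1) (nat_lit 10) ZZ4 C4_10 = true := by decide +kernel
def tc4_11 : tiCov (nat_lit 1) (nat_lit 11) ZZ4 C4_11 = true := by decide +kernel
def tc4_12 : tiCov (nat_lit 1) (nat_lit 12) ZZ4 C4_12 = true := by decide +kernel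
def tc4_13 : tiCov (nat_lit 1) (nat_lit 13) ZZ4 C4_13 = true := by decide +kernel
def tc4_14 : tiCov (nat_lit 1) (nat_lit 14) ZZ4 C4_14 = true := by decide +kernel
def wf5_0 : wfC (nat_lit 11) (nat_lit 5) C5_0 = true := by decide +kernel
def rf5_0 : rfCk (nat_lit 59) (nat_lit 15) (nat_lit 11) (nat_lit 5) (nat_lit 9) (nat_lit 0) (nat_lit 0) TL5 CL4 CL5 = true := by decide +kernel
def st5_0_0 : starCk (nat_lit 11) (nat_lit 5) (nat_lit 1) (nat_lit 2) (nat_lit 3) (nat_lit 0) (nat_lit 256) C5_0 = true := by decide +kernel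
def sc5_0 : stCov (nat_lit 2) (nat_lit 0) (Rl.cons (nat_lit 0) (nat_lit 3) Rl.nil) C5_0 = true := by decide +kernel
def wf5_2 : wfC (nat_lit 11) (nat_lit 5) C5_2 = true := by decide +kernel
def rf5_2 : rfCk (nat_lit 59) (nat_lit 15) (nat_lit 11) (nat_lit 5) (nat_lit 9) (nat_lit 0) (nat_lit 2) TL5 CL4 CL5 = true := by decide +kernel
def st5_2_0 : starCk (nat_lit 11) (nat_lit 5) (nat_lit 1) (nat_lit 2) (nat_lit 1) (nat_lit 1) (nat_lit 1) C5_2 = true := by decide +kernel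
def sc5_2 : stCov (nat_lit 0) (nat_lit 1) (Rl.cons (nat_lit 1) (nat_lit 1) Rl.nil) C5_2 = true := by decide +kernel
def wf5_3 : wfC (nat_lit 11) (nat_lit 5) C5_3 = true := by decide +kernel
def rf5_3 : rfCk (nat_lit 59) (nat_lit 15) (nat_lit 11) (nat_lit 5) (nat_lit 9) (nat_lit 0) (nat_lit 3) TL5 CL4 CL5 = true := by decide +kernel
def st5_3_0 : starCk (nat_lit 11) (nat_lit 5) (nat_lit 1) (nat_lit 2) (nat_lit 5) (nat_lit 13) (nat_lit 16) C5_3 = true := by decide +kernel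
def sc5_3 : stCov (nat_lit 1) (nat_lit 13) (Rl.cons (nat_lit 13) (nat_lit 5) Rl.nil) C5_3 = true := by decide +kernel
def wf5_4 : wfC (nat_lit 11) (nat_lit 5) C5_4 = true := by decide +kernel
def rf5_4 : rfCk (nat_lit 59) (nat_lit 15) (nat_lit 11) (nat_lit 5) (nat_lit 9) (nat_lit 0) (nat_lit 4) TL5 CL4 CL5 = true := by decide +kernel
def st5_4_0 : starCk (nat_lit 11) (nat_lit 5) (nat_lit 1) (nat_lit 2) (nat_lit 4) (nat_lit 33) (nat_lit 256) C5_4 = true := by decide +kernel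
def sc5_4 : stCov (nat_lit 2) (nat_lit 33) (Rl.cons (nat_lit 33) (nat_lit 4) Rl.nil) C5_4 = true := by decide +kernel
def wf5_10 : wfC (nat_lit 11) (nat_lit 5) C5_10 = true := by decide +kernel
def rf5_10 : rfCk (nat_lit 59) (nat_lit 15) (nat_lit 11) (nat_lit 5) (nat_lit 9) (nat_lit 0) (nat_lit 10) TL5 CL4 CL5 = true := by decide +kernel
def st5_10_0 : starCk (nat_lit 11) (nat_lit 5) (nat_lit 1) (nat_lit 2) (nat_lit 1) (nat_lit 3) (nat_lit 4096) C5_10 = true := by decide +kernel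
def sc5_10 : stCov (nat_lit 3) (nat_lit 3) (Rl.cons (nat_lit 3) (nat_lit 1) Rl.nil) C5_10 = true := by decide +kernel
def wf5_11 : wfC (nat_lit 11) (nat_lit 5) C5_11 = true := by decide +kernel
def rf5_11 : rfCk (nat_lit 59) (nat_lit 15) (nat_lit 11) (nat_lit 5) (nat_lit 9) (nat_lit 0) (nat_lit 11) TL5 CL4 CL5 = true := by decide +kernel
def st5_11_0 : starCk (nat_lit 11) (nat_lit 5) (nat_lit 1) (nat_lit 2) (nat_lit 11) (nat_lit 16) (nat_lit 1) C5_11 = true := by decide +kernel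
def sc5_11 : stCov (nat_lit 0) (nat_lit 16) (Rl.cons (nat_lit 16) (nat_lit 11) Rl.nil) C5_11 = true := by decide +kernel
def ti5_0 : tileCk (nat_lit 11) (nat_lit 5) (nat_lit 2) (nat_lit 2) (nat_lit 3) (nat_lit 11) (nat_lit 16) ZL5_0 CL5 = true := by decide +kernel
def zl5_0 : zlOK (nat_lit 3) ZL5_0 = true := by decide +kernel
def ti5_1 : tileCk (nat_lit 11) (nat_lit 5) (nat_lit 2) (nat_lit 2) (nat_lit 13) (nat_lit 11) (nat_lit 16) ZL5_1 CL5 = true := by decide +kernel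
def zl5_1 : zlOK (nat_lit 13) ZL5_1 = true := by decide +kernel
def ti5_2 : tileCk (nat_lit 11) (nat_lit 5) (nat_lit 2) (nat_lit 2) (nat_lit 4) (nat_lit 11) (nat_lit 16) ZL5_2 CL5 = true := by decide +kernel
def zl5_2 : zlOK (nat_lit 4) ZL5_2 = true := by decide +kernel
def ti5_3 : tileCk (nat_lit 11) (nat_lit 5) (nat_lit 2) (nat_lit 2) (nat_lit 3) (nat_lit 11) (nat_lit 16) ZL5_3 CL5 = true := by decide +kernel
def zl5_3 : zlOK (nat_lit 3) ZL5_3 = true := by decide +kernel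
def tc5_0 : tiCov (nat_lit 1) (nat_lit 0) ZZ5 C5_0 = true := by decide +kernel
def tc5_2 : tiCov (nat_lit 1) (nat_lit 2) ZZ5 C5_2 = true := by decide +kernel
def tc5_3 : tiCov (nat_lit 1) (nat_lit 3) ZZ5 C5_3 = true := by decide +kernel
def tc5_4 : tiCov (nat_lit 1) (nat_lit 4) ZZ5 C5_4 = true := by decide +kernel
def tc5_10 : tiCov (nat_lit 1) (nat_lit 10) ZZ5 C5_10 = true := by decide +kernel
def tc5_11 : tiCov (nat_lit 1) (nat_lit 11) ZZ5 C5_11 = true := by decide +kernel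
def wf1_6 : wfC (nat_lit 60) (nat_lit 5) C1_6 = true := by decide +kernel
def wf1_7 : wfC (nat_lit 60) (nat_lit 5) C1_7 = true := by decide +kernel
def wf1_8 : wfC (nat_lit 60) (nat_lit 5) C1_8 = true := by decide +kernel
def wf1_9 : wfC (nat_lit 60) (nat_lit 5) C1_9 = true := by decide +kernel
def wf1_15 : wfC (nat_lit 60) (nat_lit 5) C1_15 = true := by decide +kernel
def rf1_6 : rfCk (nat_lit 59) (nat_lit 5) (nat_lit 60) (nat_lit 5) (nat_lit 1) (nat_lit 262144) (nat_lit 6) TL1 CL0 CL1 = true := by decide +kernel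
def rf1_7 : rfCk (nat_lit 59) (nat_lit 5) (nat_lit 60) (nat_lit 5) (nat_lit 1) (nat_lit 262144) (nat_lit 7) TL1 CL0 CL1 = true := by decide +kernel
def rf1_8 : rfCk (nat_lit 59) (nat_lit 5) (nat_lit 60) (nat_lit 5) (nat_lit 1) (nat_lit 262144) (nat_lit 8) TL1 CL0 CL1 = true := by decide +kernel
def rf1_9 : rfCk (nat_lit 59) (nat_lit 5) (nat_lit 60) (nat_lit 5) (nat_lit 1) (nat_lit 262144) (nat_lit 9) TL1 CL0 CL1 = true := by decide +kernel
def rf1_15 : rfCk (nat_lit 59) (nat_lit 5) (nat_lit 60) (nat_lit 5) (nat_lit 1) (nat_lit 262144) (nat_lit 15) TL1 CL0 CL1 = true := by decide +kernel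
def sc1_6 : stCov (nat_lit 0) (nat_lit 0) Rl.nil C1_6 = true := by decide +kernel
def sc1_7 : stCov (nat_lit 0) (nat_lit 0) Rl.nil C1_7 = true := by decide +kernel
def sc1_8 : stCov (nat_lit 0) (nat_lit 0) Rl.nil C1_8 = true := by decide +kernel
def sc1_9 : stCov (nat_lit 0) (nat_lit 0) Rl.nil C1_9 = true := by decide +kernel
def sc1_15 : stCov (nat_lit 0) (nat_lit 0) Rl.nil C1_15 = true := by decide +kernel
def tc1_6 : tiCov (nat_lit 1) (nat_lit 6) ZZ1 C1_6 = true := by decide +kernel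
def tc1_7 : tiCov (nat_lit 1) (nat_lit 7) ZZ1 C1_7 = true := by decide +kernel
def tc1_8 : tiCov (nat_lit 1) (nat_lit 8) ZZ1 C1_8 = true := by decide +kernel
def tc1_9 : tiCov (nat_lit 1) (nat_lit 9) ZZ1 C1_9 = true := by decide +kernel
def tc1_15 : tiCov (nat_lit 1) (nat_lit 15) ZZ1 C1_15 = true := by decide +kernel
def wf2_6 : wfC (nat_lit 61) (nat_lit 5) C2_6 = true := by decide +kernel
def wf2_7 : wfC (nat_lit 61) (nat_lit 5) C2_7 = true := by decide +kernel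
def wf2_8 : wfC (nat_lit 61) (nat_lit 5) C2_8 = true := by decide +kernel
def wf2_9 : wfC (nat_lit 61) (nat_lit 5) C2_9 = true := by decide +kernel
def wf2_15 : wfC (nat_lit 61) (nat_lit 5) C2_15 = true := by decide +kernel
def rf2_6 : rfCk (nat_lit 60) (nat_lit 5) (nat_lit 61) (nat_lit 5) (nat_lit 6) (nat_lit 524288) (nat_lit 6) TL2 CL1 CL2 = true := by decide +kernel
def rf2_7 : rfCk (nat_lit 60) (nat_lit 5) (nat_lit 61) (nat_lit 5) (nat_lit 6) (nat_lit 524288) (nat_lit 7) TL2 CL1 CL2 = true := by decide +kernel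
def rf2_8 : rfCk (nat_lit 60) (nat_lit 5) (nat_lit 61) (nat_lit 5) (nat_lit 6) (nat_lit 524288) (nat_lit 8) TL2 CL1 CL2 = true := by decide +kernel
def rf2_9 : rfCk (nat_lit 60) (nat_lit 5) (nat_lit 61) (nat_lit 5) (nat_lit 6) (nat_lit 524288) (nat_lit 9) TL2 CL1 CL2 = true := by decide +kernel
def rf2_15 : rfCk (nat_lit 60) (nat_lit 5) (nat_lit 61) (nat_lit 5) (nat_lit 6) (nat_lit 524288) (nat_lit 15) TL2 CL1 CL2 = true := by decide +kernel
def sc2_6 : stCov (nat_lit 0) (nat_lit 0) Rl.nil C2_6 = true := by decide +kernel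
def sc2_7 : stCov (nat_lit 0) (nat_lit 0) Rl.nil C2_7 = true := by decide +kernel
def sc2_8 : stCov (nat_lit 0) (nat_lit 0) Rl.nil C2_8 = true := by decide +kernel
def sc2_9 : stCov (nat_lit 0) (nat_lit 0) Rl.nil C2_9 = true := by decide +kernel
def sc2_15 : stCov (nat_lit 0) (nat_lit 0) Rl.nil C2_15 = true := by decide +kernel
def tc2_6 : tiCov (nat_lit 1) (nat_lit 6) ZZ2 C2_6 = true := by decide +kernel
def tc2_7 : tiCov (nat_lit 1) (nat_lit 7) ZZ2 C2_7 = true := by decide +kernel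
def tc2_8 : tiCov (nat_lit 1) (nat_lit 8) ZZ2 C2_8 = true := by decide +kernel
def tc2_9 : tiCov (nat_lit 1) (nat_lit 9) ZZ2 C2_9 = true := by decide +kernel
def tc2_15 : tiCov (nat_lit 1) (nat_lit 15) ZZ2 C2_15 = true := by decide +kernel
def wf3_6 : wfC (nat_lit 61) (nat_lit 7) C3_6 = true := by decide +kernel
def wf3_7 : wfC (nat_lit 61) (nat_lit 7) C3_7 = true := by decide +kernel
def wf3_8 : wfC (nat_lit 61) (nat_lit 7) C3_8 = true := by decide +kernel
def wf3_9 : wfC (nat_lit 61) (nat_lit 7) C3_9 = true := by decide +kernel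
def wf3_15 : wfC (nat_lit 61) (nat_lit 7) C3_15 = true := by decide +kernel
def rf3_6 : rfCk (nat_lit 61) (nat_lit 5) (nat_lit 61) (nat_lit 7) (nat_lit 4) (nat_lit 1048576) (nat_lit 6) TL3 CL2 CL3 = true := by decide +kernel
def rf3_7 : rfCk (nat_lit 61) (nat_lit 5) (nat_lit 61) (nat_lit 7) (nat_lit 4) (nat_lit 1048576) (nat_lit 7) TL3 CL2 CL3 = true := by decide +kernel
def rf3_8 : rfCk (nat_lit 61) (nat_lit 5) (nat_lit 61) (nat_lit 7) (nat_lit 4) (nat_lit 1048576) (nat_lit 8) TL3 CL2 CL3 = true := by decide +kernel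
def rf3_9 : rfCk (nat_lit 61) (nat_lit 5) (nat_lit 61) (nat_lit 7) (nat_lit 4) (nat_lit 1048576) (nat_lit 9) TL3 CL2 CL3 = true := by decide +kernel
def rf3_15 : rfCk (nat_lit 61) (nat_lit 5) (nat_lit 61) (nat_lit 7) (nat_lit 4) (nat_lit 1048576) (nat_lit 15) TL3 CL2 CL3 = true := by decide +kernel
def sc3_6 : stCov (nat_lit 0) (nat_lit 0) Rl.nil C3_6 = true := by decide +kernel
def sc3_7 : stCov (nat_lit 0) (nat_lit 0) Rl.nil C3_7 = true := by decide +kernel
def sc3_8 : stCov (nat_lit 0) (nat_lit 0) Rl.nil C3_8 = true := by decide +kernel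
def sc3_9 : stCov (nat_lit 0) (nat_lit 0) Rl.nil C3_9 = true := by decide +kernel
def sc3_15 : stCov (nat_lit 0) (nat_lit 0) Rl.nil C3_15 = true := by decide +kernel
def tc3_6 : tiCov (nat_lit 1) (nat_lit 6) ZZ3 C3_6 = true := by decide +kernel
def tc3_7 : tiCov (nat_lit 1) (nat_lit 7) ZZ3 C3_7 = true := by decide +kernel
def tc3_8 : tiCov (nat_lit 1) (nat_lit 8) ZZ3 C3_8 = true := by decide +kernel
def tc3_9 : tiCov (nat_lit 1) (nat_lit 9) ZZ3 C3_9 = true := by decide +kernel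
def tc3_15 : tiCov (nat_lit 1) (nat_lit 15) ZZ3 C3_15 = true := by decide +kernel
def wf4_6 : wfC (nat_lit 59) (nat_lit 15) C4_6 = true := by decide +kernel
def wf4_7 : wfC (nat_lit 59) (nat_lit 15) C4_7 = true := by decide +kernel
def wf4_8 : wfC (nat_lit 59) (nat_lit 15) C4_8 = true := by decide +kernel
def wf4_9 : wfC (nat_lit 59) (nat_lit 15) C4_9 = true := by decide +kernel
def wf4_15 : wfC (nat_lit 59) (nat_lit 15) C4_15 = true := by decide +kernel
def rf4_6 : rfCk (nat_lit 61) (nat_lit 7) (nat_lit 59) (nat_lit 15) (nat_lit 9) (nat_lit 0) (nat_lit 6) TL4 CL3 CL4 = true := by decide +kernel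
def rf4_7 : rfCk (nat_lit 61) (nat_lit 7) (nat_lit 59) (nat_lit 15) (nat_lit 9) (nat_lit 0) (nat_lit 7) TL4 CL3 CL4 = true := by decide +kernel
def rf4_8 : rfCk (nat_lit 61) (nat_lit 7) (nat_lit 59) (nat_lit 15) (nat_lit 9) (nat_lit 0) (nat_lit 8) TL4 CL3 CL4 = true := by decide +kernel
def rf4_9 : rfCk (nat_lit 61) (nat_lit 7) (nat_lit 59) (nat_lit 15) (nat_lit 9) (nat_lit 0) (nat_lit 9) TL4 CL3 CL4 = true := by decide +kernel
def rf4_15 : rfCk (nat_lit 61) (nat_lit 7) (nat_lit 59) (nat_lit 15) (nat_lit 9) (nat_lit 0) (nat_lit 15) TL4 CL3 CL4 = true := by decide +kernel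
def sc4_6 : stCov (nat_lit 0) (nat_lit 0) Rl.nil C4_6 = true := by decide +kernel
def sc4_7 : stCov (nat_lit 0) (nat_lit 0) Rl.nil C4_7 = true := by decide +kernel
def sc4_8 : stCov (nat_lit 0) (nat_lit 0) Rl.nil C4_8 = true := by decide +kernel
def sc4_9 : stCov (nat_lit 0) (nat_lit 0) Rl.nil C4_9 = true := by decide +kernel
def sc4_15 : stCov (nat_lit 0) (nat_lit 0) Rl.nil C4_15 = true := by decide +kernel
def tc4_6 : tiCov (nat_lit 1) (nat_lit 6) ZZ4 C4_6 = true := by decide +kernel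
def tc4_7 : tiCov (nat_lit 1) (nat_lit 7) ZZ4 C4_7 = true := by decide +kernel
def tc4_8 : tiCov (nat_lit 1) (nat_lit 8) ZZ4 C4_8 = true := by decide +kernel
def tc4_9 : tiCov (nat_lit 1) (nat_lit 9) ZZ4 C4_9 = true := by decide +kernel
def tc4_15 : tiCov (nat_lit 1) (nat_lit 15) ZZ4 C4_15 = true := by decide +kernel
def wf5_1 : wfC (nat_lit 11) (nat_lit 5) C5_1 = true := by decide +kernel
def wf5_5 : wfC (nat_lit 11) (nat_lit 5) C5_5 = true := by decide +kernel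
def wf5_6 : wfC (nat_lit 11) (nat_lit 5) C5_6 = true := by decide +kernel
def wf5_7 : wfC (nat_lit 11) (nat_lit 5) C5_7 = true := by decide +kernel
def wf5_8 : wfC (nat_lit 11) (nat_lit 5) C5_8 = true := by decide +kernel
def wf5_9 : wfC (nat_lit 11) (nat_lit 5) C5_9 = true := by decide +kernel
def wf5_12 : wfC (nat_lit 11) (nat_lit 5) C5_12 = true := by decide +kernel
def wf5_13 : wfC (nat_lit 11) (nat_lit 5) C5_13 = true := by decide +kernel
def wf5_14 : wfC (nat_lit 11) (nat_lit 5) C5_14 = true := by decide +kernel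
def wf5_15 : wfC (nat_lit 11) (nat_lit 5) C5_15 = true := by decide +kernel
def rf5_1 : rfCk (nat_lit 59) (nat_lit 15) (nat_lit 11) (nat_lit 5) (nat_lit 9) (nat_lit 0) (nat_lit 1) TL5 CL4 CL5 = true := by decide +kernel
def rf5_5 : rfCk (nat_lit 59) (nat_lit 15) (nat_lit 11) (nat_lit 5) (nat_lit 9) (nat_lit 0) (nat_lit 5) TL5 CL4 CL5 = true := by decide +kernel
def rf5_6 : rfCk (nat_lit 59) (nat_lit 15) (nat_lit 11) (nat_lit 5) (nat_lit 9) (nat_lit 0) (nat_lit 6) TL5 CL4 CL5 = true := by decide +kernel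
def rf5_7 : rfCk (nat_lit 59) (nat_lit 15) (nat_lit 11) (nat_lit 5) (nat_lit 9) (nat_lit 0) (nat_lit 7) TL5 CL4 CL5 = true := by decide +kernel
def rf5_8 : rfCk (nat_lit 59) (nat_lit 15) (nat_lit 11) (nat_lit 5) (nat_lit 9) (nat_lit 0) (nat_lit 8) TL5 CL4 CL5 = true := by decide +kernel
def rf5_9 : rfCk (nat_lit 59) (nat_lit 15) (nat_lit 11) (nat_lit 5) (nat_lit 9) (nat_lit 0) (nat_lit 9) TL5 CL4 CL5 = true := by decide +kernel
def rf5_12 : rfCk (nat_lit 59) (nat_lit 15) (nat_lit 11) (nat_lit 5) (nat_lit 9) (nat_lit 0) (nat_lit 12) TL5 CL4 CL5 = true := by decide +kernel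
def rf5_13 : rfCk (nat_lit 59) (nat_lit 15) (nat_lit 11) (nat_lit 5) (nat_lit 9) (nat_lit 0) (nat_lit 13) TL5 CL4 CL5 = true := by decide +kernel
def rf5_14 : rfCk (nat_lit 59) (nat_lit 15) (nat_lit 11) (nat_lit 5) (nat_lit 9) (nat_lit 0) (nat_lit 14) TL5 CL4 CL5 = true := by decide +kernel
def rf5_15 : rfCk (nat_lit 59) (nat_lit 15) (nat_lit 11) (nat_lit 5) (nat_lit 9) (nat_lit 0) (nat_lit 15) TL5 CL4 CL5 = true := by decide +kernel
def sc5_1 : stCov (nat_lit 1) (nat_lit 0) Rl.nil C5_1 = true := by decide +kernel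
def sc5_5 : stCov (nat_lit 0) (nat_lit 0) Rl.nil C5_5 = true := by decide +kernel
def sc5_6 : stCov (nat_lit 0) (nat_lit 0) Rl.nil C5_6 = true := by decide +kernel
def sc5_7 : stCov (nat_lit 0) (nat_lit 0) Rl.nil C5_7 = true := by decide +kernel
def sc5_8 : stCov (nat_lit 0) (nat_lit 0) Rl.nil C5_8 = true := by decide +kernel
def sc5_9 : stCov (nat_lit 0) (nat_lit 0) Rl.nil C5_9 = true := by decide +kernel
def sc5_12 : stCov (nat_lit 0) (nat_lit 0) Rl.nil C5_12 = true := by decide +kernel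
def sc5_13 : stCov (nat_lit 0) (nat_lit 0) Rl.nil C5_13 = true := by decide +kernel
def sc5_14 : stCov (nat_lit 0) (nat_lit 0) Rl.nil C5_14 = true := by decide +kernel
def sc5_15 : stCov (nat_lit 0) (nat_lit 0) Rl.nil C5_15 = true := by decide +kernel
def tc5_1 : tiCov (nat_lit 1) (nat_lit 1) ZZ5 C5_1 = true := by decide +kernel
def tc5_5 : tiCov (nat_lit 1) (nat_lit 5) ZZ5 C5_5 = true := by decide +kernel
def tc5_6 : tiCov (nat_lit 1) (nat_lit 6) ZZ5 C5_6 = true := by decide +kernel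
def tc5_7 : tiCov (nat_lit 1) (nat_lit 7) ZZ5 C5_7 = true := by decide +kernel
def tc5_8 : tiCov (nat_lit 1) (nat_lit 8) ZZ5 C5_8 = true := by decide +kernel
def tc5_9 : tiCov (nat_lit 1) (nat_lit 9) ZZ5 C5_9 = true := by decide +kernel
def tc5_12 : tiCov (nat_lit 1) (nat_lit 12) ZZ5 C5_12 = true := by decide +kernel
def tc5_13 : tiCov (nat_lit 1) (nat_lit 13) ZZ5 C5_13 = true := by decide +kernel
def tc5_14 : tiCov (nat_lit 1) (nat_lit 14) ZZ5 C5_14 = true := by decide +kernel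
def tc5_15 : tiCov (nat_lit 1) (nat_lit 15) ZZ5 C5_15 = true := by decide +kernel
def wf6_0 : wfC (nat_lit 1) (nat_lit 1) C6_0 = true := by decide +kernel
def wf6_1 : wfC (nat_lit 1) (nat_lit 1) C6_1 = true := by decide +kernel
def wf6_2 : wfC (nat_lit 1) (nat_lit 1) C6_2 = true := by decide +kernel
def wf6_3 : wfC (nat_lit 1) (nat_lit 1) C6_3 = true := by decide +kernel
def wf6_4 : wfC (nat_lit 1) (nat_lit 1) C6_4 = true := by decide +kernel
def wf6_5 : wfC (nat_lit 1) (nat_lit 1) C6_5 = true := by decide +kernel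
def wf6_6 : wfC (nat_lit 1) (nat_lit 1) C6_6 = true := by decide +kernel
def wf6_7 : wfC (nat_lit 1) (nat_lit 1) C6_7 = true := by decide +kernel
def wf6_8 : wfC (nat_lit 1) (nat_lit 1) C6_8 = true := by decide +kernel
def wf6_9 : wfC (nat_lit 1) (nat_lit 1) C6_9 = true := by decide +kernel
def wf6_10 : wfC (nat_lit 1) (nat_lit 1) C6_10 = true := by decide +kernel
def wf6_11 : wfC (nat_lit 1) (nat_lit 1) C6_11 = true := by decide +kernel
def wf6_12 : wfC (nat_lit 1) (nat_lit 1) C6_12 = true := by decide +kernel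
def wf6_13 : wfC (nat_lit 1) (nat_lit 1) C6_13 = true := by decide +kernel
def wf6_14 : wfC (nat_lit 1) (nat_lit 1) C6_14 = true := by decide +kernel
def wf6_15 : wfC (nat_lit 1) (nat_lit 1) C6_15 = true := by decide +kernel
def rf6_0 : rfCk (nat_lit 11) (nat_lit 5) (nat_lit 1) (nat_lit 1) (nat_lit 9) (nat_lit 0) (nat_lit 0) TL6 CL5 CL6 = true := by decide +kernel
def rf6_1 : rfCk (nat_lit 11) (nat_lit 5) (nat_lit 1) (nat_lit 1) (nat_lit 9) (nat_lit 0) (nat_lit 1) TL6 CL5 CL6 = true := by decide +kernel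
def rf6_2 : rfCk (nat_lit 11) (nat_lit 5) (nat_lit 1) (nat_lit 1) (nat_lit 9) (nat_lit 0) (nat_lit 2) TL6 CL5 CL6 = true := by decide +kernel
def rf6_3 : rfCk (nat_lit 11) (nat_lit 5) (nat_lit 1) (nat_lit 1) (nat_lit 9) (nat_lit 0) (nat_lit 3) TL6 CL5 CL6 = true := by decide +kernel
def rf6_4 : rfCk (nat_lit 11) (nat_lit 5) (nat_lit 1) (nat_lit 1) (nat_lit 9) (nat_lit 0) (nat_lit 4) TL6 CL5 CL6 = true := by decide +kernel
def rf6_5 : rfCk (nat_lit 11) (nat_lit 5) (nat_lit 1) (nat_lit 1) (nat_lit 9) (nat_lit 0) (nat_lit 5) TL6 CL5 CL6 = true := by decide +kernel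
def rf6_6 : rfCk (nat_lit 11) (nat_lit 5) (nat_lit 1) (nat_lit 1) (nat_lit 9) (nat_lit 0) (nat_lit 6) TL6 CL5 CL6 = true := by decide +kernel
def rf6_7 : rfCk (nat_lit 11) (nat_lit 5) (nat_lit 1) (nat_lit 1) (nat_lit 9) (nat_lit 0) (nat_lit 7) TL6 CL5 CL6 = true := by decide +kernel
def rf6_8 : rfCk (nat_lit 11) (nat_lit 5) (nat_lit 1) (nat_lit 1) (nat_lit 9) (nat_lit 0) (nat_lit 8) TL6 CL5 CL6 = true := by decide +kernel
def rf6_9 : rfCk (nat_lit 11) (nat_lit 5) (nat_lit 1) (nat_lit 1) (nat_lit 9) (nat_lit 0) (nat_lit 9) TL6 CL5 CL6 = true := by decide +kernel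
def rf6_10 : rfCk (nat_lit 11) (nat_lit 5) (nat_lit 1) (nat_lit 1) (nat_lit 9) (nat_lit 0) (nat_lit 10) TL6 CL5 CL6 = true := by decide +kernel
def rf6_11 : rfCk (nat_lit 11) (nat_lit 5) (nat_lit 1) (nat_lit 1) (nat_lit 9) (nat_lit 0) (nat_lit 11) TL6 CL5 CL6 = true := by decide +kernel
def rf6_12 : rfCk (nat_lit 11) (nat_lit 5) (nat_lit 1) (nat_lit 1) (nat_lit 9) (nat_lit 0) (nat_lit 12) TL6 CL5 CL6 = true := by decide +kernel
def rf6_13 : rfCk (nat_lit 11) (nat_lit 5) (nat_lit 1) (nat_lit 1) (nat_lit 9) (nat_lit 0) (nat_lit 13) TL6 CL5 CL6 = true := by decide +kernel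
def rf6_14 : rfCk (nat_lit 11) (nat_lit 5) (nat_lit 1) (nat_lit 1) (nat_lit 9) (nat_lit 0) (nat_lit 14) TL6 CL5 CL6 = true := by decide +kernel
def rf6_15 : rfCk (nat_lit 11) (nat_lit 5) (nat_lit 1) (nat_lit 1) (nat_lit 9) (nat_lit 0) (nat_lit 15) TL6 CL5 CL6 = true := by decide +kernel
def de6_0 : deadCk (nat_lit 1) (nat_lit 1) C6_0 = true := by decide +kernel
def de6_1 : deadCk (nat_lit 1) (nat_lit 1) C6_1 = true := by decide +kernel
def de6_2 : deadCk (nat_lit 1) (nat_lit 1) C6_2 = true := by decide +kernel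
def de6_3 : deadCk (nat_lit 1) (nat_lit 1) C6_3 = true := by decide +kernel
def de6_4 : deadCk (nat_lit 1) (nat_lit 1) C6_4 = true := by decide +kernel
def de6_5 : deadCk (nat_lit 1) (nat_lit 1) C6_5 = true := by decide +kernel
def de6_6 : deadCk (nat_lit 1) (nat_lit 1) C6_6 = true := by decide +kernel
def de6_7 : deadCk (nat_lit 1) (nat_lit 1) C6_7 = true := by decide +kernel
def de6_8 : deadCk (nat_lit 1) (nat_lit 1) C6_8 = true := by decide +kernel
def de6_9 : deadCk (nat_lit 1) (nat_lit 1) C6_9 = true := by decide +kernel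
def de6_10 : deadCk (nat_lit 1) (nat_lit 1) C6_10 = true := by decide +kernel
def de6_11 : deadCk (nat_lit 1) (nat_lit 1) C6_11 = true := by decide +kernel
def de6_12 : deadCk (nat_lit 1) (nat_lit 1) C6_12 = true := by decide +kernel
def de6_13 : deadCk (nat_lit 1) (nat_lit 1) C6_13 = true := by decide +kernel
def de6_14 : deadCk (nat_lit 1) (nat_lit 1) C6_14 = true := by decide +kernel
def de6_15 : deadCk (nat_lit 1) (nat_lit 1) C6_15 = true := by decide +kernel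

end Pool.Agent.NNr.R11_1_4_5
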